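import Pool.Agent.N662.FP.Stm

/-! FL/WIN: log-concavity for window events (project of helper662). -/

set_option autoImplicit false
open MeasureTheory ProbabilityTheory Filter Set
open scoped ENNReal Topology

namespace Pool.Agent.N36.FL

open Pool.Agent.N662.FP

/-- extension by zero -/
noncomputable def ext (F : Finset (Sym2 (ℤ × ℤ))) (y : Fin F.card → ℝ) : Sym2 (ℤ × ℤ) → ℝ :=
  open Classical in fun e0 => if h : e0 ∈ F then y (F.equivFin ⟨e0, h⟩) else 0

theorem ext_cont (F : Finset (Sym2 (ℤ × ℤ))) (e0 : Sym2 (ℤ × ℤ)) :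
    Continuous fun y : Fin F.card → ℝ => ext F y e0 := by
  unfold ext
  by_cases h : e0 ∈ F
  · simp only [h, dif_pos]
    exact continuous_apply _
  · simp only [h, dif_neg, not_false_eq_true]
    exact continuous_const

theorem ext_mid (F : Finset (Sym2 (ℤ × ℤ))) (y z : Fin F.card → ℝ) (e0 : Sym2 (ℤ × ℤ)) :
    ext F (fun i => (y i + z i) / 2) e0 = (ext F y e0 + ext F z e0) / 2 := by
  unfold ext
  by_cases h : e0 ∈ F
  · simp only [h, dif_pos]
  · simp only [h, dif_neg, not_false_eq_true]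
    norm_num

theorem ext_of_mem (F : Finset (Sym2 (ℤ × ℤ))) (x : Sym2 (ℤ × ℤ) → ℝ) (e0 : Sym2 (ℤ × ℤ))
    (h : e0 ∈ F) : ext F (fun i => x (F.equivFin.symm i : Sym2 (ℤ × ℤ))) e0 = x e0 := by
  unfold ext
  rw [dif_pos h]
  show x ((F.equivFin.symm (F.equivFin ⟨e0, h⟩) : F) : Sym2 (ℤ × ℤ)) = x e0
  rw [Equiv.symm_apply_apply]

theorem closed_win (F : Finset (Sym2 (ℤ × ℤ))) (a v : ℤ × ℤ) (N : ℕ) (t : ℝ) :
    IsClosed {y : Fin F.card → ℝ | Win (ext F y) a v N t} := by
  have e : {y : Fin F.card → ℝ | Win (ext F y) a v N t} =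
      ⋂ (n : ℕ) (_ : n ≤ N) (p : ℕ → ℤ × ℤ) (_ : p 0 = a) (_ : p n = v)
        (_ : ∀ i < n, |(p (i + 1)).1 - (p i).1| + |(p (i + 1)).2 - (p i).2| = 1),
        {y : Fin F.card → ℝ | t ≤ ∑ i ∈ Finset.range n, ext F y s(p i, p (i + 1))} := by
    ext y
    simp only [Win, Set.mem_iInter]
    rfl
  rw [e]
  refine isClosed_iInter fun n => isClosed_iInter fun _ => isClosed_iInter fun p =>
    isClosed_iInter fun _ => isClosed_iInter fun _ => isClosed_iInter fun _ => ?_
  exact isClosed_le continuous_const (continuous_finsetSum _ fun i _ => ext_cont F _)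

theorem t_WIN (h1 : S_PLE) (h2 : S_FIN) : S_WIN := by
  intro Ω _ _ X hX a v N s t
  obtain ⟨F, hF⟩ := h2 a N
  obtain ⟨Y, hY⟩ : ∃ Y : Ω → Fin F.card → ℝ,
      Y = fun ω i => X (F.equivFin.symm i : Sym2 (ℤ × ℤ)) ω := ⟨_, rfl⟩
  have hYm : Measurable Y := by
    rw [hY]
    exact measurable_pi_lambda _ fun i => hX.meas _
  have hinj : Function.Injective fun i : Fin F.card => (F.equivFin.symm i : Sym2 (ℤ × ℤ)) :=
    Subtype.val_injective.comp F.equivFin.symm.injective
  have hlaw : Measure.map Y (volume : Measure Ω) =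
      Measure.pi fun _ : Fin F.card => expMeasure 1 := by
    have hi : iIndepFun (fun i : Fin F.card => X (F.equivFin.symm i : Sym2 (ℤ × ℤ)))
        (volume : Measure Ω) := hX.ind.precomp hinj
    have h3 := (iIndepFun_iff_map_fun_eq_pi_map
      (fun i : Fin F.card => (hX.meas (F.equivFin.symm i : Sym2 (ℤ × ℤ))).aemeasurable)).1 hi
    rw [hY, h3]
    congr 1
    funext i
    exact hX.law _
  have hset : ∀ r : ℝ, {ω | Win (env X ω) a v N r} =
      Y ⁻¹' {y : Fin F.card → ℝ | Win (ext F y) a v N r} := by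
    intro r
    ext ω
    show Win (env X ω) a v N r ↔ Win (ext F (Y ω)) a v N r
    have hs : ∀ n ≤ N, ∀ p : ℕ → ℤ × ℤ, p 0 = a →
        (∀ i < n, |(p (i + 1)).1 - (p i).1| + |(p (i + 1)).2 - (p i).2| = 1) →
        ∑ i ∈ Finset.range n, env X ω s(p i, p (i + 1)) =
          ∑ i ∈ Finset.range n, ext F (Y ω) s(p i, p (i + 1)) := by
      intro n hn p hp hst
      refine Finset.sum_congr rfl fun i hi => ?_
      rw [hY]
      exact (ext_of_mem F (env X ω) _ (hF n hn p hp hst i (Finset.mem_range.1 hi))).symm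
    constructor
    · intro h n hn p hp hv hst
      rw [← hs n hn p hp hst]
      exact h n hn p hp hv hst
    · intro h n hn p hp hv hst
      rw [hs n hn p hp hst]
      exact h n hn p hp hv hst
  have hm : ∀ r : ℝ, (volume : Measure Ω) {ω | Win (env X ω) a v N r} =
      (Measure.pi fun _ : Fin F.card => expMeasure 1)
        {y : Fin F.card → ℝ | Win (ext F y) a v N r} := by
    intro r
    rw [hset, ← Measure.map_apply hYm (closed_win F a v N r).measurableSet, hlaw]
  rw [hm, hm, hm]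
  refine h1 _ _ _ _ (closed_win F a v N s).measurableSet (closed_win F a v N t).measurableSet
    (closed_win F a v N _).measurableSet ?_
  intro y hy z hz
  show Win (ext F (fun i => (y i + z i) / 2)) a v N ((s + t) / 2)
  intro n hn p hp hv hst
  have e1 := hy n hn p hp hv hst
  have e2 := hz n hn p hp hv hst
  have e3 : ∑ i ∈ Finset.range n, ext F (fun i => (y i + z i) / 2) s(p i, p (i + 1)) =
      (∑ i ∈ Finset.range n, ext F y s(p i, p (i + 1)) +
        ∑ i ∈ Finset.range n, ext F z s(p i, p (i + 1))) / 2 := by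
    rw [← Finset.sum_add_distrib, Finset.sum_div]
    exact Finset.sum_congr rfl fun i _ => ext_mid F y z _
  rw [e3]
  linarith

end Pool.Agent.N36.FL

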